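import Pool.Agent.Run7.h779.TG.Base

/-!
# Project TG: pieces GRP and CLSU (helper779)
-/

set_option autoImplicit false
set_option linter.all false

open Polynomial IsDedekindDomain
open scoped Classical

namespace Run7.h779.TG

open Pool.Agent.N874.PP (Ov Ev Sq1)
open Pool.Agent.N352.PJ (IsGen dsc)
open Run7.h784.TG
open Run7.h875.TS (sqL)
open Pool.Agent.N539.PP (sq1_mul_sq sq1_sq)

section main

variable {k K L O : Type} [Field k] [Finite k] [Field K] [Algebra k[X] K]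
  [IsFractionRing k[X] K]
  [Field L] [Algebra K L] [Algebra k[X] L] [IsScalarTower k[X] K L] [CommRing O]
  [IsDedekindDomain O] [Algebra O L] [IsFractionRing O L] [Algebra k[X] O]
  [IsScalarTower k[X] O L] [IsIntegralClosure O k[X] L] {g N : ℕ} {r : k[X]} {f : k[X][X]} {θ : L}

theorem gen_int (hG : IsGen g K f θ) : IsIntegral k[X] θ := ⟨f, hG.mon, hG.root⟩

theorem inj_kL (K : Type) [Field K] [Algebra k[X] K] [IsFractionRing k[X] K] [Algebra K L]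
    [IsScalarTower k[X] K L] {p : k[X]} (hp : p ≠ 0) : algebraMap k[X] L p ≠ 0 := by
  rw [IsScalarTower.algebraMap_apply k[X] K L, Ne, map_eq_zero,
    map_eq_zero_iff _ (IsFractionRing.injective k[X] K)]
  exact hp

/-- The statement of LOCQ which is used. -/
def Two (O : Type) [CommRing O] [IsDedekindDomain O] [Algebra O L] [IsFractionRing O L]
    [Algebra k[X] O] (f : k[X][X]) (θ : L) (Q : k[X]) : Prop :=
  ∀ a b : k[X][X], a.Monic → b.Monic → (∀ j, Q ∣ (f - a * b).coeff j) →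
    ∀ 𝔓 : HeightOneSpectrum O, Ov Q 𝔓 →
      (𝔓.valuation L (eval₂ (algebraMap k[X] L) θ a) < 1 ∧
        𝔓.valuation L (eval₂ (algebraMap k[X] L) θ b) = 1) ∨
      (𝔓.valuation L (eval₂ (algebraMap k[X] L) θ a) = 1 ∧
        𝔓.valuation L (eval₂ (algebraMap k[X] L) θ b) < 1)

theorem locW_mul (hG : IsGen g K f θ) {P : k[X]} (hP : Irreducible P) (h2 : Two O f θ P)
    {D : k[X]} (hD : D ≠ 0) {x y : L} (hx : x ≠ 0) (hy : y ≠ 0) (h : LocW O f θ P D x)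
    (h' : LocW O f θ P D y) : LocW O f θ P D (x * y) := by
  have hθ : IsIntegral k[X] θ := gen_int hG
  obtain ⟨a, b, ham, hbm, hae, hab, hl⟩ := h
  obtain ⟨a', b', ham', hbm', hae', hab', hl'⟩ := h'
  have t1 := h2 a b ham hbm hab
  have t2 := h2 a' b' ham' hbm' hab'
  obtain ⟨κ, _, π, hπs, hπ⟩ := exists_res hP
  have m1 := (cong_iff hπ f (a * b)).1 hab
  have m2 := (cong_iff hπ f (a' * b')).1 hab'
  rw [Polynomial.map_mul] at m1 m2
  obtain ⟨d, c, c', hd, hc, hc', e1, e2, hco⟩ := gcd_monic (ham.map π) (ham'.map π)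
  have e3 : c * b.map π = c' * b'.map π := by
    apply mul_left_cancel₀ hd.ne_zero
    rw [← mul_assoc, ← mul_assoc, ← e1, ← e2, ← m1, ← m2]
  obtain ⟨e, he⟩ : c' ∣ b.map π := by
    refine hco.symm.dvd_of_dvd_mul_left ?_
    rw [e3]
    exact dvd_mul_right _ _
  have hem : e.Monic := by
    have := hbm.map π
    rw [he] at this
    exact Monic.of_mul_monic_left hc' this
  have he' : b'.map π = c * e := by
    apply mul_left_cancel₀ hc'.ne_zero
    rw [← e3, he]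
    ring
  obtain ⟨d₁, hd₁, hdd, hdn⟩ := lift_monic hπs hd
  obtain ⟨c₁, hc₁, hcc, hcn⟩ := lift_monic hπs hc
  obtain ⟨c₁', hc₁', hcc', hcn'⟩ := lift_monic hπs hc'
  obtain ⟨e₁, he₁, hee, hen⟩ := lift_monic hπs hem
  have cl : ∀ p q : k[X][X], p.map π = q.map π → ∀ 𝔓 : HeightOneSpectrum O, Ov P 𝔓 →
      𝔓.valuation L (ev θ p - ev θ q) < 1 := by
    intro p q hpq 𝔓 h𝔓
    have h3 := val_ev_lt hθ h𝔓 ((cong_iff hπ p q).2 hpq)
    rwa [ev, eval₂_sub] at h3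
  have ca : a.map π = (d₁ * c₁).map π := by rw [Polynomial.map_mul, hdd, hcc, e1]
  have ca' : a'.map π = (d₁ * c₁').map π := by rw [Polynomial.map_mul, hdd, hcc', e2]
  have cb : b.map π = (c₁' * e₁).map π := by rw [Polynomial.map_mul, hcc', hee, he]
  have cb' : b'.map π = (c₁ * e₁).map π := by rw [Polynomial.map_mul, hcc, hee, he']
  have hDL : algebraMap k[X] L (-D) ≠ 0 := inj_kL K (neg_ne_zero.2 hD)
  refine ⟨c₁ * c₁', d₁ * e₁, hc₁.mul hc₁', hd₁.mul he₁, ?_, ?_, ?_⟩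
  · rw [hc₁.natDegree_mul hc₁', hcn, hcn']
    have n1 : a.natDegree = d.natDegree + c.natDegree := by
      rw [← hd.natDegree_mul hc, ← e1, ham.natDegree_map]
    have n2 : a'.natDegree = d.natDegree + c'.natDegree := by
      rw [← hd.natDegree_mul hc', ← e2, ham'.natDegree_map]
    rw [n1, Nat.even_add] at hae
    rw [n2, Nat.even_add] at hae'
    rw [Nat.even_add, ← hae, ← hae']
  · rw [cong_iff hπ]
    rw [m1, Polynomial.map_mul, Polynomial.map_mul, Polynomial.map_mul, hcc, hcc', hdd, hee, e1, he]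
    ring
  · intro 𝔓 h𝔓
    have kd := cl _ _ ca 𝔓 h𝔓
    have kd' := cl _ _ ca' 𝔓 h𝔓
    have kb := cl _ _ cb 𝔓 h𝔓
    have kb' := cl _ _ cb' 𝔓 h𝔓
    simp only [ev, eval₂_mul] at kd kd' kb kb' ⊢
    set A := eval₂ (algebraMap k[X] L) θ a with hA
    set A' := eval₂ (algebraMap k[X] L) θ a' with hA'
    set B := eval₂ (algebraMap k[X] L) θ b with hB
    set B' := eval₂ (algebraMap k[X] L) θ b' with hB'
    set D0 := eval₂ (algebraMap k[X] L) θ d₁ with hD0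
    set C0 := eval₂ (algebraMap k[X] L) θ c₁ with hC0
    set C1 := eval₂ (algebraMap k[X] L) θ c₁' with hC1
    set E0 := eval₂ (algebraMap k[X] L) θ e₁ with hE0
    have lD : 𝔓.valuation L D0 ≤ 1 := val_ev_le hθ 𝔓 d₁
    have lC : 𝔓.valuation L C0 ≤ 1 := val_ev_le hθ 𝔓 c₁
    have lC' : 𝔓.valuation L C1 ≤ 1 := val_ev_le hθ 𝔓 c₁'
    have lE : 𝔓.valuation L E0 ≤ 1 := val_ev_le hθ 𝔓 e₁
    have spl : ∀ u v : L, 𝔓.valuation L u ≤ 1 → 𝔓.valuation L v ≤ 1 →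
        𝔓.valuation L (u * v) = 1 → 𝔓.valuation L u = 1 ∧ 𝔓.valuation L v = 1 := by
      intro u v hu hv huv
      rw [map_mul] at huv
      constructor
      · refine le_antisymm hu ?_
        rw [← huv]
        exact mul_le_of_le_one_right' hv
      · refine le_antisymm hv ?_
        rw [← huv]
        exact mul_le_of_le_one_left' hu
    rcases t1 𝔓 h𝔓 with ⟨p1, p2⟩ | ⟨p1, p2⟩ <;> rcases t2 𝔓 h𝔓 with ⟨q1, q2⟩ | ⟨q1, q2⟩
    · -- both in
      obtain ⟨v1, v2⟩ := spl _ _ lC' lE (val_close 𝔓 p2 kb)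
      obtain ⟨v3, -⟩ := spl _ _ lC lE (val_close 𝔓 q2 kb')
      have s1 := (hl 𝔓 h𝔓).1 p1
      have s2 := (hl' 𝔓 h𝔓).1 q1
      rw [← mul_assoc] at s1 s2
      have s1' := sq1_congr 𝔓 (mul_ne_zero hx hDL) p2 kb s1
      have s2' := sq1_congr 𝔓 (mul_ne_zero hy hDL) q2 kb' s2
      have s3 := Pool.Agent.N539.PP.Sq1.mul 𝔓 s1' s2'
      have e4 : x * algebraMap k[X] L (-D) * (C1 * E0) * (y * algebraMap k[X] L (-D) * (C0 * E0))
          = (x * y * (C0 * C1)) * (algebraMap k[X] L (-D) * E0) ^ 2 := by ring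
      rw [e4, sq1_mul_sq 𝔓 (mul_ne_zero hDL (val_ne 𝔓 v2))] at s3
      refine ⟨fun h5 => ?_, fun _ => s3⟩
      rw [map_mul, v1, v3, mul_one] at h5
      exact absurd h5 (lt_irrefl _)
    · -- a in, a' unit
      obtain ⟨v1, v2⟩ := spl _ _ lC' lE (val_close 𝔓 p2 kb)
      obtain ⟨v3, v4⟩ := spl _ _ lD lC' (val_close 𝔓 q1 kd')
      have s1 := (hl 𝔓 h𝔓).1 p1
      have s2 := (hl' 𝔓 h𝔓).2 q1
      rw [← mul_assoc] at s1
      have s1' := sq1_congr 𝔓 (mul_ne_zero hx hDL) p2 kb s1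
      have s2' := sq1_congr 𝔓 hy q1 kd' s2
      have s3 := Pool.Agent.N539.PP.Sq1.mul 𝔓 s1' s2'
      have e4 : x * algebraMap k[X] L (-D) * (C1 * E0) * (y * (D0 * C1))
          = (x * y * (algebraMap k[X] L (-D) * (D0 * E0))) * C1 ^ 2 := by ring
      rw [e4, sq1_mul_sq 𝔓 (val_ne 𝔓 v1)] at s3
      have h6 := val_close_lt 𝔓 p1 kd
      rw [map_mul, v3, one_mul] at h6
      refine ⟨fun _ => s3, fun h5 => ?_⟩
      rw [map_mul, v1, mul_one] at h5
      exact absurd h5 h6.ne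
    · -- a unit, a' in
      obtain ⟨v1, v2⟩ := spl _ _ lD lC (val_close 𝔓 p1 kd)
      obtain ⟨v3, v4⟩ := spl _ _ lC lE (val_close 𝔓 q2 kb')
      have s1 := (hl 𝔓 h𝔓).2 p1
      have s2 := (hl' 𝔓 h𝔓).1 q1
      rw [← mul_assoc] at s2
      have s1' := sq1_congr 𝔓 hx p1 kd s1
      have s2' := sq1_congr 𝔓 (mul_ne_zero hy hDL) q2 kb' s2
      have s3 := Pool.Agent.N539.PP.Sq1.mul 𝔓 s1' s2'
      have e4 : x * (D0 * C0) * (y * algebraMap k[X] L (-D) * (C0 * E0))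
          = (x * y * (algebraMap k[X] L (-D) * (D0 * E0))) * C0 ^ 2 := by ring
      rw [e4, sq1_mul_sq 𝔓 (val_ne 𝔓 v2)] at s3
      have h6 := val_close_lt 𝔓 q1 kd'
      rw [map_mul, v1, one_mul] at h6
      refine ⟨fun _ => s3, fun h5 => ?_⟩
      rw [map_mul, v2, one_mul] at h5
      exact absurd h5 h6.ne
    · -- both units
      obtain ⟨v1, v2⟩ := spl _ _ lD lC (val_close 𝔓 p1 kd)
      obtain ⟨v3, v4⟩ := spl _ _ lD lC' (val_close 𝔓 q1 kd')
      have s1 := (hl 𝔓 h𝔓).2 p1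
      have s2 := (hl' 𝔓 h𝔓).2 q1
      have s1' := sq1_congr 𝔓 hx p1 kd s1
      have s2' := sq1_congr 𝔓 hy q1 kd' s2
      have s3 := Pool.Agent.N539.PP.Sq1.mul 𝔓 s1' s2'
      have e4 : x * (D0 * C0) * (y * (D0 * C1)) = (x * y * (C0 * C1)) * D0 ^ 2 := by ring
      rw [e4, sq1_mul_sq 𝔓 (val_ne 𝔓 v1)] at s3
      refine ⟨fun h5 => ?_, fun _ => s3⟩
      rw [map_mul, v2, v4, mul_one] at h5
      exact absurd h5 (lt_irrefl _)

theorem locW_sq (hf : f.Monic) (P D : k[X]) {s : L} (hs : s ≠ 0) :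
    LocW O f θ P D (s ^ 2) := by
  refine ⟨1, f, monic_one, hf, ?_, ?_, ?_⟩
  · rw [natDegree_one]
    exact Even.zero
  · intro j
    rw [one_mul, sub_self, coeff_zero]
    exact dvd_zero _
  · intro 𝔓 _
    refine ⟨fun h => ?_, fun _ => ?_⟩
    · rw [eval₂_one, map_one] at h
      exact absurd h (lt_irrefl _)
    · rw [eval₂_one, mul_one]
      exact sq1_sq 𝔓 hs

theorem ev_mul' {𝔓 : HeightOneSpectrum O} {α β : L} (h1 : Ev 𝔓 α) (h2 : Ev 𝔓 β) :
    Ev 𝔓 (α * β) := by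
  obtain ⟨x, hx⟩ := h1
  obtain ⟨y, hy⟩ := h2
  exact ⟨x * y, by rw [map_mul, map_mul, hx, hy, mul_pow]⟩

theorem selC_mul (hG : IsGen g K f θ) {S : Finset k[X]} {u : k[X] → k[X]}
    (hS : GoodT g f S u) (h2 : ∀ P ∈ S, Two O f θ P) {α β : L} (h1 : SelC O K f θ S u α)
    (h1' : SelC O K f θ S u β) : SelC O K f θ S u (α * β) := by
  refine ⟨mul_ne_zero h1.ne h1'.ne, ?_, ?_, ?_⟩
  · rw [map_mul]
    exact h1.nsq.mul h1'.nsq
  · intro P hPm hPi hPS 𝔓 hO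
    exact ev_mul' (h1.ev P hPm hPi hPS 𝔓 hO) (h1'.ev P hPm hPi hPS 𝔓 hO)
  · intro P hP
    refine locW_mul hG (hS.irr P hP) (h2 P hP) ?_ h1.ne h1'.ne (h1.tw P hP) (h1'.tw P hP)
    refine mul_ne_zero (hS.irr P hP).ne_zero fun h0 => hS.nu P hP (h0 ▸ dvd_zero P)

theorem selC_sq (hG : IsGen g K f θ) {S : Finset k[X]} {u : k[X] → k[X]} {s : L} (hs : s ≠ 0) :
    SelC O K f θ S u (s ^ 2) := by
  refine ⟨pow_ne_zero _ hs, ?_, ?_, ?_⟩
  · rw [map_pow]
    exact ⟨_, pow_two _⟩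
  · intro P hPm hPi hPS 𝔓 hO
    exact ⟨s, map_pow _ _ _⟩
  · intro P hP
    exact locW_sq hG.mon _ _ hs

theorem selG_iff (hG : IsGen g K f θ) {S : Finset k[X]} {u : k[X] → k[X]}
    (hS : GoodT g f S u) (h2 : ∀ P ∈ S, Two O f θ P) (α : Lˣ) :
    α ∈ SelG O K f θ S u ↔ SelC O K f θ S u (α : L) := by
  constructor
  · intro hα
    unfold SelG at hα
    induction hα using Subgroup.closure_induction with
    | mem x hx => exact hx
    | one =>
      have := selC_sq (O := O) hG (S := S) (u := u) (one_ne_zero (α := L))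
      rwa [one_pow] at this
    | mul x y _ _ hx hy =>
      rw [Units.val_mul]
      exact selC_mul hG hS h2 hx hy
    | inv x _ hx =>
      have e : ((x⁻¹ : Lˣ) : L) = (x : L) * (((x⁻¹ : Lˣ) : L)) ^ 2 := by
        rw [pow_two, ← mul_assoc, Units.mul_inv, one_mul]
      rw [e]
      exact selC_mul hG hS h2 hx (selC_sq hG (Units.ne_zero _))
  · intro hα
    exact Subgroup.subset_closure hα

theorem sq1_ne {𝔓 : HeightOneSpectrum O} {x : L} (h : Sq1 𝔓 x) : x ≠ 0 := by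
  rintro rfl
  obtain ⟨s, hs⟩ := h
  rw [map_zero] at hs
  exact absurd hs not_lt_zero'

theorem locW_cong (hG : IsGen g K f θ) {P : k[X]} (hP : Irreducible P)
    {w w' z : k[X]} (hw : ¬ P ∣ w) (hw' : ¬ P ∣ w') (hz : P ∣ z ^ 2 * w - w') {x : L} (hx : x ≠ 0)
    (h : LocW O f θ P (P * w) x) : LocW O f θ P (P * w') x := by
  obtain ⟨a, b, ham, hbm, hae, hab, hl⟩ := h
  refine ⟨a, b, ham, hbm, hae, hab, fun 𝔓 h𝔓 => ⟨fun h3 => ?_, (hl 𝔓 h𝔓).2⟩⟩
  have s1 := (hl 𝔓 h𝔓).1 h3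
  have hzw : ¬ P ∣ z ^ 2 * w := fun h0 => hw' (by
    have := dvd_sub h0 hz
    rwa [sub_sub_cancel] at this)
  have hz0 : ¬ P ∣ z := fun h0 => hzw ((h0.trans (dvd_pow_self z two_ne_zero)).mul_right w)
  have v1 := val_poly_one (L := L) hP h𝔓 hzw
  have v2 := val_poly_one (L := L) hP h𝔓 hz0
  have hb0 : eval₂ (algebraMap k[X] L) θ b ≠ 0 := by
    intro h0
    apply sq1_ne s1
    rw [h0, mul_zero, mul_zero]
  have hPL : algebraMap k[X] L (-P) ≠ 0 := inj_kL K (neg_ne_zero.2 hP.ne_zero)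
  have s2 := (sq1_mul_sq 𝔓 (val_ne 𝔓 v2)).2 s1
  have e1 : x * (algebraMap k[X] L (-(P * w)) * eval₂ (algebraMap k[X] L) θ b) *
      algebraMap k[X] L z ^ 2 = x * (algebraMap k[X] L (-P) * eval₂ (algebraMap k[X] L) θ b) *
        algebraMap k[X] L (z ^ 2 * w) := by
    simp only [map_neg, map_mul, map_pow]
    ring
  rw [e1] at s2
  have v3 : 𝔓.valuation L (algebraMap k[X] L (z ^ 2 * w) - algebraMap k[X] L w') < 1 := by
    rw [← map_sub]
    exact val_dvd_lt h𝔓 hz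
  have s3 := sq1_congr 𝔓 (mul_ne_zero hx (mul_ne_zero hPL hb0)) v1 v3 s2
  have e2 : x * (algebraMap k[X] L (-P) * eval₂ (algebraMap k[X] L) θ b) * algebraMap k[X] L w'
      = x * (algebraMap k[X] L (-(P * w')) * eval₂ (algebraMap k[X] L) θ b) := by
    simp only [map_neg, map_mul]
    ring
  rwa [e2] at s3

end main

/-- **GRP** -/
theorem T_GRP (hL : P_LOCQ) : P_GRP := by
  intro k K L O _ _ _ _ _ _ _ _ _ _ _ _ _ _ _ _ g N r f θ hF hG
  have h2 : ∀ P : k[X], P.Monic → Irreducible P → ¬ P ∣ dsc g f → Two O f θ P := by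
    intro P hPm hPi hPd
    exact (hL k K L O g N r f θ hF hG P hPm hPi hPd).2.2.1
  refine ⟨fun P hPm hPi hPd w hw x y hx hy h h' => ?_, fun S u hS => ⟨fun α => ?_, ?_⟩⟩
  · refine locW_mul hG hPi (h2 P hPm hPi hPd) ?_ hx hy h h'
    exact mul_ne_zero hPi.ne_zero fun h0 => hw (h0 ▸ dvd_zero P)
  · exact selG_iff hG hS (fun P hP => h2 P (hS.mon P hP) (hS.irr P hP) (hS.nd P hP)) α
  · rintro _ ⟨s, rfl⟩
    rw [selG_iff hG hS (fun P hP => h2 P (hS.mon P hP) (hS.irr P hP) (hS.nd P hP))]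
    have := selC_sq (O := O) hG (S := S) (u := u) (Units.ne_zero s)
    simpa using this

/-- **CLSU** -/
theorem T_CLSU : P_CLSU := by
  intro k K L O _ _ _ _ _ _ _ _ _ _ _ _ _ _ _ _ g N r f θ hF hG S u u' hS hS' hz α hα
  refine ⟨hα.ne, hα.nsq, hα.ev, fun P hP => ?_⟩
  obtain ⟨z, hz⟩ := hz P hP
  exact locW_cong hG (hS.irr P hP) (hS.nu P hP) (hS'.nu P hP) hz hα.ne (hα.tw P hP)

end Run7.h779.TG
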