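import Mathlib

/-!
# Project TG: linear algebra for STEP (helper779)
-/

set_option autoImplicit false
set_option linter.all false

open Module

namespace Run7.h779.TG

theorem orth_rank {ι : Type} [Fintype ι] [DecidableEq ι] (W₁ W₂ : Submodule (ZMod 2) (ι → ZMod 2))
    (h : ∀ x ∈ W₁, ∀ y ∈ W₂, dotProduct y x = 0) :
    finrank (ZMod 2) W₁ + finrank (ZMod 2) W₂ ≤ Fintype.card ι := by
  have : Fact (Nat.Prime 2) := ⟨Nat.prime_two⟩
  have h1 : W₂.map (dotProductEquiv (ZMod 2) ι : (ι → ZMod 2) →ₗ[ZMod 2] _) ≤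
      W₁.dualAnnihilator := by
    rintro _ ⟨y, hy, rfl⟩
    rw [Submodule.mem_dualAnnihilator]
    intro x hx
    exact h x hx y hy
  have h2 := Submodule.finrank_mono h1
  rw [LinearEquiv.finrank_map_eq] at h2
  have h3 := Subspace.finrank_add_finrank_dualAnnihilator_eq W₁
  rw [Module.finrank_fintype_fun_eq_card] at h3
  omega

section group

variable {A : Type} [CommGroup A]

/-- The image of a group under a map which is additive on it. -/
theorem exists_image {ι : Type} [Finite ι] (T G : Subgroup A) (χ : A → ι → ZMod 2)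
    (hadd : ∀ x ∈ G, ∀ y ∈ G, χ (x * y) = χ x + χ y)
    (hker : ∀ x ∈ G, χ x = 0 → x ∈ T) :
    ∃ W : Submodule (ZMod 2) (ι → ZMod 2), (∀ w, w ∈ W ↔ ∃ x ∈ G, χ x = w) ∧
      T.relIndex G ≤ 2 ^ finrank (ZMod 2) W := by
  have : Fact (Nat.Prime 2) := ⟨Nat.prime_two⟩
  let F : G →* Multiplicative (ι → ZMod 2) := MonoidHom.mk' (fun x => Multiplicative.ofAdd (χ x))
    (fun x y => by
      show Multiplicative.ofAdd (χ ((x : A) * (y : A))) = _
      rw [hadd _ x.2 _ y.2]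
      rfl)
  let R : AddSubgroup (ι → ZMod 2) := Subgroup.toAddSubgroup' F.range
  refine ⟨AddSubgroup.toZModSubmodule 2 R, fun w => ?_, ?_⟩
  · rw [AddSubgroup.mem_toZModSubmodule]
    constructor
    · rintro ⟨x, hx⟩
      exact ⟨x, x.2, Multiplicative.ofAdd.injective hx⟩
    · rintro ⟨x, hx, rfl⟩
      exact ⟨⟨x, hx⟩, rfl⟩
  · have h1 : F.ker ≤ T.subgroupOf G := by
      intro x hx
      rw [MonoidHom.mem_ker] at hx
      rw [Subgroup.mem_subgroupOf]
      exact hker _ x.2 (Multiplicative.ofAdd.injective hx)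
    have h2 : F.ker.index = Nat.card F.range := Subgroup.index_ker F
    have h3 : Nat.card F.range = 2 ^ finrank (ZMod 2) (AddSubgroup.toZModSubmodule 2 R) := by
      have h4 : Nat.card F.range = Nat.card (AddSubgroup.toZModSubmodule 2 R) := rfl
      rw [h4]
      haveI : Fintype (AddSubgroup.toZModSubmodule 2 R) := Fintype.ofFinite _
      rw [Nat.card_eq_fintype_card]
      simpa using Module.card_eq_pow_finrank (K := ZMod 2) (V := AddSubgroup.toZModSubmodule 2 R)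
    have hpos : F.ker.index ≠ 0 := by
      rw [h2, h3]
      positivity
    rw [Subgroup.relIndex, ← h3, ← h2]
    exact Nat.le_of_dvd (Nat.pos_of_ne_zero hpos) (Subgroup.index_dvd_of_le h1)

theorem two_groups {ι : Type} [Fintype ι] [Nonempty ι] (H T G G' : Subgroup A)
    (χ v : A → ι → ZMod 2) (hHT : H ≤ T) (hG' : G' ⊓ T ≤ G ⊓ T) (hfin : H.relIndex G ≠ 0)
    (hχ : ∀ x ∈ G, ∀ y ∈ G, χ (x * y) = χ x + χ y) (kχ : ∀ x ∈ G, χ x = 0 → x ∈ T)
    (hv : ∀ x ∈ G', ∀ y ∈ G', v (x * y) = v x + v y) (kv : ∀ x ∈ G', v x = 0 → x ∈ T)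
    (orth : ∀ s ∈ G, ∀ x ∈ G', dotProduct (χ s) (v x) = 0)
    (orth1 : ∀ s ∈ G, dotProduct (χ s) 1 = 0) (n1 : ∀ x ∈ G', v x ≠ 1) :
    H.relIndex G ≤ 2 ^ (Fintype.card ι - 1) * H.relIndex (G ⊓ T) ∧
    H.relIndex G' * H.relIndex G ≤ 2 ^ (Fintype.card ι - 1) * H.relIndex (G ⊓ T) ^ 2 := by
  classical
  have : Fact (Nat.Prime 2) := ⟨Nat.prime_two⟩
  obtain ⟨W₁, m1, i1⟩ := exists_image T G χ hχ kχ
  obtain ⟨W₂, m2, i2⟩ := exists_image T G' v hv kv
  have hone : (1 : ι → ZMod 2) ∉ W₂ := by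
    rw [m2]
    rintro ⟨x, hx, h1⟩
    exact n1 x hx h1
  have hlt : W₂ < W₂ ⊔ Submodule.span (ZMod 2) {1} := by
    refine lt_of_le_of_ne le_sup_left fun h0 => hone ?_
    rw [h0]
    exact Submodule.mem_sup_right (Submodule.mem_span_singleton_self _)
  have h3 := Submodule.finrank_lt_finrank_of_lt hlt
  have h4 := orth_rank (W₂ ⊔ Submodule.span (ZMod 2) {1}) W₁ (by
    intro x hx y hy
    obtain ⟨s, hs, rfl⟩ := (m1 y).1 hy
    obtain ⟨x1, hx1, x2, hx2, rfl⟩ := Submodule.mem_sup.1 hx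
    obtain ⟨z, hz, rfl⟩ := (m2 x1).1 hx1
    obtain ⟨c, rfl⟩ := Submodule.mem_span_singleton.1 hx2
    rw [dotProduct_add, orth s hs z hz, dotProduct_smul, orth1 s hs, smul_zero, add_zero])
  have hchain := Subgroup.relIndex_inf_mul_relIndex H T G
  rw [inf_eq_left.2 hHT, inf_comm] at hchain
  have hchain' := Subgroup.relIndex_inf_mul_relIndex H T G'
  rw [inf_eq_left.2 hHT, inf_comm] at hchain'
  have hne : H.relIndex (G ⊓ T) ≠ 0 := by
    intro h0
    rw [h0, zero_mul] at hchain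
    exact hfin hchain.symm
  have hmono : H.relIndex (G' ⊓ T) ≤ H.relIndex (G ⊓ T) :=
    Subgroup.relIndex_le_of_le_right hG' hne
  set a := finrank (ZMod 2) W₁
  set b := finrank (ZMod 2) W₂
  set m := H.relIndex (G ⊓ T)
  have hab : a + b ≤ Fintype.card ι - 1 := by omega
  have hpow : (2 : ℕ) ^ a * 2 ^ b ≤ 2 ^ (Fintype.card ι - 1) := by
    rw [← pow_add]
    exact Nat.pow_le_pow_right (by norm_num) hab
  constructor
  · rw [← hchain, mul_comm]
    refine Nat.mul_le_mul_right _ (i1.trans ?_)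
    exact Nat.pow_le_pow_right (by norm_num) (by omega)
  · rw [← hchain, ← hchain']
    calc H.relIndex (G' ⊓ T) * T.relIndex G' * (m * T.relIndex G)
        ≤ m * 2 ^ b * (m * 2 ^ a) :=
          Nat.mul_le_mul (Nat.mul_le_mul hmono i2) (Nat.mul_le_mul le_rfl i1)
      _ = (2 ^ a * 2 ^ b) * m ^ 2 := by ring
      _ ≤ 2 ^ (Fintype.card ι - 1) * m ^ 2 := Nat.mul_le_mul_right _ hpow

end group

end Run7.h779.TG
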