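import Pool.Agent.Run7.h779.TG.GRP
import Pool.Agent.Run7.h779.TG.Lin
import Pool.Agent.N588.PJ.SD
import Pool.Agent.N769.PJ.Int

/-!
# Project TG: piece STEP (helper779)
-/

set_option autoImplicit false
set_option linter.all false

open Polynomial IsDedekindDomain
open scoped Classical

namespace Run7.h779.TG

open Pool.Agent.N874.PP (Ov Ev Sq1)
open Pool.Agent.N352.PJ (IsGen dsc)
open Run7.h784.TG
open Run7.h875.TS (sqL sz Tr)
open Pool.Agent.N539.PP (sq1_mul_sq sq1_sq sq1_mul_iff ev_mul finite_residue)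

section main

variable {k K L O : Type} [Field k] [Finite k] [Field K] [Algebra k[X] K]
  [IsFractionRing k[X] K]
  [Field L] [Algebra K L] [Algebra k[X] L] [IsScalarTower k[X] K L] [CommRing O]
  [IsDedekindDomain O] [Algebra O L] [IsFractionRing O L] [Algebra k[X] O]
  [IsScalarTower k[X] O L] [IsIntegralClosure O k[X] L] {g N : ℕ} {r : k[X]} {f : k[X][X]} {θ : L}

/-- The elements trivial at `Q`. -/
def Tsub (L O : Type) [Field L] [CommRing O] [IsDedekindDomain O] [Algebra O L]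
    [IsFractionRing O L] [Algebra k[X] O] (Q : k[X]) : Subgroup Lˣ where
  carrier := {α | Tr O Q (α : L)}
  mul_mem' := by
    intro a b ha hb 𝔓 h𝔓
    rw [Units.val_mul]
    exact Pool.Agent.N539.PP.Sq1.mul 𝔓 (ha 𝔓 h𝔓) (hb 𝔓 h𝔓)
  one_mem' := by
    intro 𝔓 h𝔓
    have := sq1_sq 𝔓 (one_ne_zero (α := L))
    rwa [one_pow] at this
  inv_mem' := by
    intro a ha 𝔓 h𝔓
    have e : ((a⁻¹ : Lˣ) : L) = (a : L) * (((a⁻¹ : Lˣ) : L)) ^ 2 := by
      rw [pow_two, ← mul_assoc, Units.mul_inv, one_mul]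
    rw [e, sq1_mul_sq 𝔓 (Units.ne_zero _)]
    exact ha 𝔓 h𝔓

theorem mem_Tsub {Q : k[X]} (α : Lˣ) : α ∈ Tsub L O Q ↔ Tr O Q (α : L) := Iff.rfl

theorem sqL_le_Tsub (Q : k[X]) : sqL L ≤ Tsub L O Q := by
  rintro _ ⟨s, rfl⟩ 𝔓 h𝔓
  have := sq1_sq 𝔓 (Units.ne_zero s)
  simpa using this

/-- Elements of the new group which are trivial at `Q`. -/
theorem sel_of_T {S : Finset k[X]} {u : k[X] → k[X]} {Q w : k[X]} (hQS : Q ∉ S) {α : L}
    (h : SelC O K f θ (insert Q S) (Function.update u Q w) α) (ht : Tr O Q α) :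
    SelC O K f θ S u α := by
  refine ⟨h.ne, h.nsq, ?_, ?_⟩
  · intro P hPm hPi hPS 𝔓 hO
    by_cases hPQ : P = Q
    · subst hPQ
      exact Pool.Agent.N539.PP.Sq1.ev 𝔓 (ht 𝔓 hO)
    · refine h.ev P hPm hPi ?_ 𝔓 hO
      rw [Finset.mem_insert, not_or]
      exact ⟨hPQ, hPS⟩
  · intro P hP
    have hne : P ≠ Q := fun h0 => hQS (h0 ▸ hP)
    have := h.tw P (Finset.mem_insert_of_mem hP)
    rwa [Function.update_of_ne hne] at this

/-- Indicator with values in `ZMod 2`. -/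
noncomputable def ind (p : Prop) : ZMod 2 := if p then 0 else 1

theorem ind_mul {p q r : Prop} (h : r ↔ (p ↔ q)) : ind r = ind p + ind q := by
  unfold ind
  by_cases hp : p <;> by_cases hq : q <;> simp [h, hp, hq]
  decide

theorem ind_zero {p : Prop} (h : ind p = 0) : p := by
  by_contra hp
  simp [ind, hp] at h

theorem even_sum {ι : Type} [Fintype ι] (p : ι → Prop) (F : ι → ZMod 2)
    (hF : ∀ i, F i = if p i then 1 else 0) (h : Even {i | p i}.ncard) : ∑ i, F i = 0 := by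
  have e1 : ∑ i, F i = ((Finset.univ.filter p).card : ZMod 2) := by
    rw [Finset.card_filter]
    push_cast
    exact Finset.sum_congr rfl fun i _ => hF i
  have e2 : {i | p i}.ncard = (Finset.univ.filter p).card := by
    rw [Set.ncard_eq_toFinset_card']
    congr 1
    ext i
    simp
  rw [e1, ← e2]
  rw [ZMod.natCast_eq_zero_iff]
  exact h.two_dvd

theorem ncard_sub {Q : k[X]} (p : HeightOneSpectrum O → Prop) :
    {i : {𝔓 : HeightOneSpectrum O // Ov Q 𝔓} | p i.1}.ncard =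
      {𝔓 : HeightOneSpectrum O | Ov Q 𝔓 ∧ p 𝔓}.ncard := by
  refine Set.ncard_congr (fun i _ => i.1) ?_ ?_ ?_
  · intro i hi
    exact ⟨i.2, hi⟩
  · intro i j _ _ h
    exact Subtype.ext h
  · rintro 𝔓 ⟨h1, h2⟩
    exact ⟨⟨𝔓, h1⟩, h2, rfl⟩

end main

/-- **STEP** -/
theorem T_STEP (hL : P_LOCQ) (hG : P_GRP) (hR : P_REC) : P_STEP := by
  intro k K L O _ _ _ _ _ _ _ _ _ _ _ _ _ _ _ _ g N r f θ hF hGen S u hS hfin Q hQm hQ hQS hd w hw
  obtain ⟨q1, ⟨𝔓₀, h𝔓₀⟩, q3, q4, q5⟩ := hL k K L O g N r f θ hF hGen Q hQm hQ hd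
  have hfinO : Module.Finite k[X] O :=
    (Pool.Agent.N588.PJ.fin_O Pool.Agent.N769.PJ.int g k K L O f θ hGen hF.fam.sq).2
  have hS' : GoodT g f (insert Q S) (Function.update u Q w) := by
    refine ⟨?_, ?_, ?_, ?_⟩
    · intro P hP
      rcases Finset.mem_insert.1 hP with rfl | hP
      · exact hQm
      · exact hS.mon P hP
    · intro P hP
      rcases Finset.mem_insert.1 hP with rfl | hP
      · exact hQ
      · exact hS.irr P hP
    · intro P hP
      rcases Finset.mem_insert.1 hP with rfl | hP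
      · exact hd
      · exact hS.nd P hP
    · intro P hP
      by_cases hPQ : P = Q
      · rw [hPQ, Function.update_self]
        exact hw
      · rcases Finset.mem_insert.1 hP with h0 | hP
        · exact absurd h0 hPQ
        · rw [Function.update_of_ne hPQ]
          exact hS.nu P hP
  obtain ⟨mG, sG⟩ := (hG k K L O g N r f θ hF hGen).2 S u hS
  obtain ⟨mG', sG'⟩ := (hG k K L O g N r f θ hF hGen).2 _ _ hS'
  have : Finite {𝔓 : HeightOneSpectrum O // Ov Q 𝔓} := q1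
  have hft : Fintype {𝔓 : HeightOneSpectrum O // Ov Q 𝔓} := Fintype.ofFinite _
  have hne : Nonempty {𝔓 : HeightOneSpectrum O // Ov Q 𝔓} := ⟨⟨𝔓₀, h𝔓₀⟩⟩
  have hnr : nr O Q = Fintype.card {𝔓 : HeightOneSpectrum O // Ov Q 𝔓} := by
    rw [nr, ← Nat.card_eq_fintype_card]
    rfl
  have htw : ∀ {x : L}, SelC O K f θ (insert Q S) (Function.update u Q w) x →
      LocW O f θ Q (Q * w) x := by
    intro x hx
    have := hx.tw Q (Finset.mem_insert_self _ _)
    rwa [Function.update_self] at this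
  have hG'T : SelG O K f θ (insert Q S) (Function.update u Q w) ⊓ Tsub L O Q ≤
      SelG O K f θ S u := by
    rintro α ⟨h1, h2⟩
    rw [mG]
    exact sel_of_T hQS ((mG' α).1 h1) h2
  have hresf : ∀ 𝔓 : HeightOneSpectrum O, Ov Q 𝔓 → Finite (O ⧸ 𝔓.asIdeal) :=
    fun 𝔓 h => finite_residue hQ h
  have hevG : ∀ {s : L}, SelC O K f θ S u s → ∀ 𝔓 : HeightOneSpectrum O, Ov Q 𝔓 → Ev 𝔓 s :=
    fun hs 𝔓 h => hs.ev Q hQm hQ hQS 𝔓 h
  have main := two_groups (sqL L) (Tsub L O Q) (SelG O K f θ S u)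
    (SelG O K f θ (insert Q S) (Function.update u Q w))
    (ι := {𝔓 : HeightOneSpectrum O // Ov Q 𝔓})
    (fun α i => ind (Sq1 i.1 (α : L))) (fun α i => ind (Ev i.1 (α : L)))
    (sqL_le_Tsub Q) (le_inf hG'T inf_le_right) hfin
    (by
      intro x hx y hy
      funext i
      have := hresf i.1 i.2
      have sx := (mG x).1 hx
      have sy := (mG y).1 hy
      exact ind_mul (by
        rw [Units.val_mul]
        exact sq1_mul_iff i.1 sx.ne sy.ne (hevG sx _ i.2) (hevG sy _ i.2)))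
    (by
      intro x _ h 𝔓 h𝔓
      exact ind_zero (congrFun h ⟨𝔓, h𝔓⟩))
    (by
      intro x hx y hy
      funext i
      exact ind_mul (by
        rw [Units.val_mul]
        exact ev_mul i.1 (Units.ne_zero x) (Units.ne_zero y)))
    (by
      intro x hx h
      exact (q5 w x hw (Units.ne_zero x) (htw ((mG' x).1 hx))).1
        fun 𝔓 h𝔓 => ind_zero (congrFun h ⟨𝔓, h𝔓⟩))
    (by
      intro s hs x hx
      have h1 := hR k K L O g N r f θ hF hGen S u Q w hS hQm hQ hQS hd hw s x ((mG s).1 hs)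
        ((mG' x).1 hx)
      refine even_sum (fun i : {𝔓 : HeightOneSpectrum O // Ov Q 𝔓} =>
        ¬ Ev i.1 (x : L) ∧ ¬ Sq1 i.1 (s : L)) _ (fun i => ?_) ?_
      · simp only [ind]
        by_cases e1 : Ev i.1 (x : L) <;> by_cases e2 : Sq1 i.1 (s : L) <;> simp [e1, e2]
      · have := ncard_sub (Q := Q) fun 𝔓 : HeightOneSpectrum O => ¬ Ev 𝔓 (x : L) ∧ ¬ Sq1 𝔓 (s : L)
        rw [this]
        exact h1)
    (by
      intro s hs
      have sx := (mG s).1 hs
      have h1 := q4 s sx.ne sx.nsq (hevG sx)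
      refine even_sum (fun i : {𝔓 : HeightOneSpectrum O // Ov Q 𝔓} => ¬ Sq1 i.1 (s : L)) _
        (fun i => ?_) ?_
      · simp only [ind, Pi.one_apply]
        by_cases e2 : Sq1 i.1 (s : L) <;> simp [e2]
      · have := ncard_sub (Q := Q) fun 𝔓 : HeightOneSpectrum O => ¬ Sq1 𝔓 (s : L)
        rw [this]
        exact h1)
    (by
      intro x hx h
      obtain ⟨𝔓, h𝔓, he⟩ := (q5 w x hw (Units.ne_zero x) (htw ((mG' x).1 hx))).2
      have := congrFun h ⟨𝔓, h𝔓⟩
      simp [ind, he] at this)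
  rw [← hnr] at main
  refine ⟨?_, Tsub L O Q, mem_Tsub, sqL_le_Tsub Q, hG'T, ?_, main.1, main.2⟩
  · rw [hnr]
    exact Fintype.card_pos
  · intro h1 α hα
    have sx := (mG' α).1 hα
    obtain ⟨p1, 𝔓, h𝔓, he⟩ := q5 w α hw (Units.ne_zero α) (htw sx)
    refine hG'T ⟨hα, p1 fun 𝔓' h𝔓' => ?_⟩
    rw [hnr, Fintype.card_eq_one_iff] at h1
    obtain ⟨i, hi⟩ := h1
    have e1 := hi ⟨𝔓, h𝔓⟩
    have e2 := hi ⟨𝔓', h𝔓'⟩
    have e3 : 𝔓' = 𝔓 := congrArg Subtype.val (e2.trans e1.symm)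
    rw [e3]
    exact he

end Run7.h779.TG
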