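import Pool.Agent.Run7.h784.TG.StmA

/-!
# Project TG: piece COMB (helper779)
-/

set_option autoImplicit false
set_option linter.all false

open Polynomial
open scoped Classical

namespace Run7.h779.TG

open Run7.h784.TG hiding cmp
open Run7.h784.TG renaming cmp → cp

/-! ### Compositions -/

theorem mem_cmp {m l : ℕ} (c : Fin l → ℕ) : c ∈ cp m l ↔ (∀ i, 1 ≤ c i) ∧ ∑ i, c i = m := by
  rw [cp, Finset.mem_filter, Fintype.mem_piFinset]
  constructor
  · rintro ⟨h1, h2⟩
    exact ⟨fun i => (Finset.mem_Icc.1 (h1 i)).1, h2⟩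
  · rintro ⟨h1, h2⟩
    refine ⟨fun i => Finset.mem_Icc.2 ⟨h1 i, ?_⟩, h2⟩
    rw [← h2]
    exact Finset.single_le_sum (f := c) (fun _ _ => Nat.zero_le _) (Finset.mem_univ i)

theorem card_cmp_succ (m l : ℕ) :
    (cp m (l + 1)).card = ∑ j ∈ Finset.range m, (cp j l).card := by
  rw [Finset.card_eq_sum_card_fiberwise (f := fun c : Fin (l + 1) → ℕ => m - c 0)
    (t := Finset.range m)]
  · refine Finset.sum_congr rfl fun j hj => ?_
    rw [Finset.mem_range] at hj
    refine Finset.card_bij' (fun c _ => fun i : Fin l => c i.succ) (fun c _ => Fin.cons (m - j) c)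
      ?_ ?_ ?_ ?_
    · intro c hc
      rw [Finset.mem_filter, mem_cmp] at hc
      obtain ⟨⟨h1, h2⟩, h3⟩ := hc
      rw [mem_cmp]
      refine ⟨fun i => h1 _, ?_⟩
      rw [Fin.sum_univ_succ] at h2
      have := h1 0
      omega
    · intro c hc
      rw [mem_cmp] at hc
      rw [Finset.mem_filter, mem_cmp]
      refine ⟨⟨fun i => ?_, ?_⟩, ?_⟩
      · refine Fin.cases ?_ (fun i => ?_) i
        · rw [Fin.cons_zero]
          omega
        · rw [Fin.cons_succ]
          exact hc.1 i
      · rw [Fin.sum_univ_succ, Fin.cons_zero]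
        simp only [Fin.cons_succ]
        omega
      · simp only [Fin.cons_zero]
        omega
    · intro c hc
      rw [Finset.mem_filter, mem_cmp] at hc
      obtain ⟨⟨h1, h2⟩, h3⟩ := hc
      funext i
      refine Fin.cases ?_ (fun i => ?_) i
      · rw [Fin.cons_zero]
        have h4 := h1 0
        have h5 : c 0 ≤ m := by
          rw [← h2]
          exact Finset.single_le_sum (f := c) (fun _ _ => Nat.zero_le _) (Finset.mem_univ 0)
        omega
      · rw [Fin.cons_succ]
    · intro c hc
      funext i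
      simp only [Fin.cons_succ]
  · intro c hc
    rw [Finset.mem_coe, mem_cmp] at hc
    rw [Finset.mem_coe, Finset.mem_range]
    have h4 := hc.1 0
    have h5 : c 0 ≤ m := by
      rw [← hc.2]
      exact Finset.single_le_sum (f := c) (fun _ _ => Nat.zero_le _) (Finset.mem_univ 0)
    show m - c 0 < m
    omega

theorem card_cmp_zero (m : ℕ) : (cp m 0).card = if m = 0 then 1 else 0 := by
  by_cases hm : m = 0
  · subst hm
    rw [if_pos rfl, Finset.card_eq_one]
    refine ⟨fun i => i.elim0, ?_⟩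
    ext c
    rw [mem_cmp, Finset.mem_singleton]
    constructor
    · intro _
      funext i
      exact i.elim0
    · rintro rfl
      exact ⟨fun i => i.elim0, by simp⟩
  · rw [if_neg hm, Finset.card_eq_zero, Finset.eq_empty_iff_forall_notMem]
    intro c hc
    rw [mem_cmp] at hc
    apply hm
    rw [← hc.2]
    simp

theorem sum_choose (m l : ℕ) : ∑ j ∈ Finset.range m, j.choose l = m.choose (l + 1) := by
  induction m with
  | zero => simp
  | succ m ih => rw [Finset.sum_range_succ, ih, Nat.choose_succ_succ, add_comm]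

theorem card_cmp (l : ℕ) : ∀ m : ℕ, (cp (m + 1) (l + 1)).card = m.choose l := by
  induction l with
  | zero =>
    intro m
    rw [card_cmp_succ, Finset.sum_range_succ']
    simp [card_cmp_zero]
  | succ l ih =>
    intro m
    rw [card_cmp_succ, Finset.sum_range_succ']
    have h0 : (cp 0 (l + 1)).card = 0 := by
      rw [card_cmp_succ, Finset.sum_range_zero]
    rw [h0, add_zero, Finset.sum_congr rfl fun j _ => ih j, sum_choose]

theorem sum_Icc_range (f : ℕ → ℝ) (m : ℕ) :
    ∑ l ∈ Finset.Icc 1 m, f l = ∑ j ∈ Finset.range m, f (j + 1) := by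
  induction m with
  | zero => simp
  | succ m ih => rw [Finset.sum_Icc_succ_top (by omega), ih, Finset.sum_range_succ]

theorem sum_cmp (m : ℕ) (hm : 1 ≤ m) :
    ∑ l ∈ Finset.Icc 1 m, (-1 : ℝ) ^ (l + 1) / l * ((cp m l).card : ℝ) = 1 / m := by
  obtain ⟨n, rfl⟩ : ∃ n, m = n + 1 := ⟨m - 1, by omega⟩
  have e1 : ∑ l ∈ Finset.Icc 1 (n + 1), (-1 : ℝ) ^ (l + 1) / l * ((cp (n + 1) l).card : ℝ)
      = ∑ j ∈ Finset.range (n + 1), (-1 : ℝ) ^ j / (j + 1) * (n.choose j : ℝ) := by
    rw [sum_Icc_range (fun l : ℕ => (-1 : ℝ) ^ (l + 1) / l * ((cp (n + 1) l).card : ℝ))]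
    refine Finset.sum_congr rfl fun j _ => ?_
    rw [card_cmp, pow_succ, pow_succ]
    push_cast
    ring
  rw [e1]
  have e2 : ∀ j : ℕ, (-1 : ℝ) ^ j / (j + 1) * (n.choose j : ℝ)
      = ((-1 : ℝ) ^ j * ((n + 1).choose (j + 1) : ℝ)) / (n + 1) := by
    intro j
    have h := Nat.add_one_mul_choose_eq n j
    have h' : ((n : ℝ) + 1) * (n.choose j : ℝ) = ((n + 1).choose (j + 1) : ℝ) * ((j : ℝ) + 1) := by
      exact_mod_cast h
    have h1 : (n : ℝ) + 1 ≠ 0 := by positivity
    have h2 : (j : ℝ) + 1 ≠ 0 := by positivity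
    field_simp
    linear_combination h'
  simp_rw [e2]
  rw [← Finset.sum_div]
  congr 1
  · have h := Int.alternating_sum_range_choose_of_ne (n := n + 1) (by omega)
    rw [Finset.sum_range_succ'] at h
    have h' : (∑ j ∈ Finset.range (n + 1), (-1 : ℝ) ^ (j + 1) * ((n + 1).choose (j + 1) : ℝ)) +
        (-1) ^ 0 * ((n + 1).choose 0 : ℝ) = 0 := by exact_mod_cast h
    rw [Nat.choose_zero_right, Nat.cast_one, pow_zero, mul_one] at h'
    have h3 : ∑ j ∈ Finset.range (n + 1), (-1 : ℝ) ^ (j + 1) * ((n + 1).choose (j + 1) : ℝ)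
        = - ∑ j ∈ Finset.range (n + 1), (-1 : ℝ) ^ j * ((n + 1).choose (j + 1) : ℝ) := by
      rw [← Finset.sum_neg_distrib]
      refine Finset.sum_congr rfl fun j _ => ?_
      rw [pow_succ]
      ring
    linarith
  · push_cast
    ring

/-! ### Factorisations -/

section fac

variable {F : Type} [Field F]

/-- The factorisations of `p` into `l` monic factors of positive degree. -/
def Wf (p : F[X]) (l : ℕ) : Set (Fin l → F[X]) :=
  {a | (∀ i, (a i).Monic ∧ 1 ≤ (a i).natDegree) ∧ ∏ i, a i = p}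

theorem finite_div {p : F[X]} (hp : p ≠ 0) : {a : F[X] | a.Monic ∧ a ∣ p}.Finite := by
  have h1 : (Set.Iic (UniqueFactorizationMonoid.normalizedFactors p)).Finite := by
    have : (Set.Iic (UniqueFactorizationMonoid.normalizedFactors p)) =
        ((UniqueFactorizationMonoid.normalizedFactors p).powerset.toFinset : Set _) := by
      ext s
      simp
    rw [this]
    exact Finset.finite_toSet _
  refine Set.Finite.of_finite_image (f := UniqueFactorizationMonoid.normalizedFactors)
    (h1.subset ?_) ?_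
  · rintro _ ⟨a, ⟨ha, had⟩, rfl⟩
    exact (UniqueFactorizationMonoid.dvd_iff_normalizedFactors_le_normalizedFactors ha.ne_zero hp).1
      had
  · rintro a ⟨ha, -⟩ b ⟨hb, -⟩ hab
    have h2 : Associated a b :=
      ((UniqueFactorizationMonoid.prod_normalizedFactors ha.ne_zero).symm.trans
        (Associated.of_eq (congrArg Multiset.prod hab))).trans
        (UniqueFactorizationMonoid.prod_normalizedFactors hb.ne_zero)
    exact eq_of_monic_of_associated ha hb h2

theorem Wf_finite {p : F[X]} (hp : p ≠ 0) (l : ℕ) : (Wf p l).Finite := by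
  refine (Set.Finite.pi' (fun _ : Fin l => finite_div hp)).subset ?_
  rintro a ⟨h1, h2⟩ i
  refine ⟨(h1 i).1, ?_⟩
  rw [← h2]
  exact Finset.dvd_prod_of_mem a (Finset.mem_univ i)

theorem uniq_idx {n : ℕ} {a : Fin n → F[X]} {q p : F[X]} (hq : Irreducible q) (hqp : ¬ q ∣ p)
    (ha : ∏ i, a i = q * p) {i j : Fin n} (hi : q ∣ a i) (hj : q ∣ a j) : i = j := by
  by_contra hne
  have h1 : q * q ∣ ∏ x ∈ {i, j}, a x := by
    rw [Finset.prod_pair hne]
    exact mul_dvd_mul hi hj
  have h2 : q * q ∣ q * p := by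
    rw [← ha]
    exact h1.trans (Finset.prod_dvd_prod_of_subset _ _ _ (Finset.subset_univ _))
  exact hqp ((mul_dvd_mul_iff_left hq.ne_zero).1 h2)

theorem Wf_rec {q p : F[X]} (hqm : q.Monic) (hq : Irreducible q) (hp : p.Monic) (hqp : ¬ q ∣ p)
    (l : ℕ) : (Wf (q * p) (l + 1)).ncard = (l + 1) * ((Wf p (l + 1)).ncard + (Wf p l).ncard) := by
  have f1 : Finite (Wf p l) := Wf_finite hp.ne_zero l
  have f2 : Finite (Wf p (l + 1)) := Wf_finite hp.ne_zero (l + 1)
  have hqd : 1 ≤ q.natDegree := hq.natDegree_pos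
  let Φ : Fin (l + 1) × (Wf p (l + 1) ⊕ Wf p l) → (Fin (l + 1) → F[X]) := fun x =>
    Sum.elim (fun a => Function.update a.1 x.1 (q * a.1 x.1)) (fun a => Fin.insertNth x.1 q a.1) x.2
  have hval : ∀ x, q ∣ Φ x x.1 := by
    rintro ⟨i, a | a⟩
    · show q ∣ Function.update a.1 i (q * a.1 i) i
      rw [Function.update_self]
      exact dvd_mul_right _ _
    · show q ∣ (Fin.insertNth i q a.1 : Fin (l + 1) → F[X]) i
      rw [Fin.insertNth_apply_same]
  have hprod : ∀ x, ∏ i, Φ x i = q * p := by
    rintro ⟨i, a | a⟩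
    · show ∏ j, Function.update a.1 i (q * a.1 i) j = q * p
      rw [Finset.prod_update_of_mem (Finset.mem_univ i), mul_assoc]
      congr 1
      refine Eq.trans ?_ a.2.2
      rw [← Finset.mul_prod_erase _ _ (Finset.mem_univ i), Finset.sdiff_singleton_eq_erase]
    · show ∏ j, (Fin.insertNth i q a.1 : Fin (l + 1) → F[X]) j = q * p
      rw [Fin.prod_univ_succAbove _ i, Fin.insertNth_apply_same]
      simp only [Fin.insertNth_apply_succAbove]
      rw [a.2.2]
  have hmon : ∀ x i, (Φ x i).Monic ∧ 1 ≤ (Φ x i).natDegree := by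
    rintro ⟨i, a | a⟩ j
    · show (Function.update a.1 i (q * a.1 i) j).Monic ∧ _
      by_cases hj : j = i
      · subst hj
        rw [Function.update_self]
        refine ⟨hqm.mul (a.2.1 j).1, ?_⟩
        show 1 ≤ (Function.update a.1 j (q * a.1 j) j).natDegree
        rw [Function.update_self, hqm.natDegree_mul (a.2.1 j).1]
        omega
      · rw [Function.update_of_ne hj]
        refine ⟨(a.2.1 j).1, ?_⟩
        show 1 ≤ (Function.update a.1 i (q * a.1 i) j).natDegree
        rw [Function.update_of_ne hj]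
        exact (a.2.1 j).2
    · show ((Fin.insertNth i q a.1 : Fin (l + 1) → F[X]) j).Monic ∧
        1 ≤ ((Fin.insertNth i q a.1 : Fin (l + 1) → F[X]) j).natDegree
      refine Fin.succAboveCases i ?_ (fun j => ?_) j
      · rw [Fin.insertNth_apply_same]
        exact ⟨hqm, hqd⟩
      · rw [Fin.insertNth_apply_succAbove]
        exact a.2.1 j
  let Ψ : Fin (l + 1) × (Wf p (l + 1) ⊕ Wf p l) → Wf (q * p) (l + 1) := fun x =>
    ⟨Φ x, hmon x, hprod x⟩
  have hinj : Function.Injective Ψ := by
    intro x y hxy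
    have h1 : Φ x = Φ y := congrArg Subtype.val hxy
    have h2 : x.1 = y.1 := by
      refine uniq_idx hq hqp (hprod x) (hval x) ?_
      rw [h1]
      exact hval y
    obtain ⟨i, x⟩ := x
    obtain ⟨j, y⟩ := y
    simp only at h2
    subst h2
    congr 1
    rcases x with a | a <;> rcases y with b | b
    · congr 1
      apply Subtype.ext
      funext j
      have h3 : Function.update a.1 i (q * a.1 i) j = Function.update b.1 i (q * b.1 i) j :=
        congrFun h1 j
      by_cases hj : j = i
      · subst hj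
        rw [Function.update_self, Function.update_self] at h3
        exact mul_left_cancel₀ hq.ne_zero h3
      · rwa [Function.update_of_ne hj, Function.update_of_ne hj] at h3
    · exfalso
      have h3 : Function.update a.1 i (q * a.1 i) i = (Fin.insertNth i q b.1 : Fin (l + 1) → F[X]) i :=
        congrFun h1 i
      rw [Function.update_self, Fin.insertNth_apply_same] at h3
      have h4 := congrArg natDegree h3
      rw [hqm.natDegree_mul (a.2.1 i).1] at h4
      have := (a.2.1 i).2
      omega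
    · exfalso
      have h3 : (Fin.insertNth i q a.1 : Fin (l + 1) → F[X]) i = Function.update b.1 i (q * b.1 i) i :=
        congrFun h1 i
      rw [Function.update_self, Fin.insertNth_apply_same] at h3
      have h4 := congrArg natDegree h3
      rw [hqm.natDegree_mul (b.2.1 i).1] at h4
      have := (b.2.1 i).2
      omega
    · congr 1
      apply Subtype.ext
      funext j
      have h3 : (Fin.insertNth i q a.1 : Fin (l + 1) → F[X]) (i.succAbove j) =
        (Fin.insertNth i q b.1 : Fin (l + 1) → F[X]) (i.succAbove j) := congrFun h1 _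
      rwa [Fin.insertNth_apply_succAbove, Fin.insertNth_apply_succAbove] at h3
  have hsurj : Function.Surjective Ψ := by
    rintro ⟨a, ha1, ha2⟩
    have h1 : q ∣ ∏ i, a i := by
      rw [ha2]
      exact dvd_mul_right _ _
    obtain ⟨i, -, hi⟩ := (Prime.dvd_finsetProd_iff hq.prime a).1 h1
    obtain ⟨b, hb⟩ := hi
    have hbm : b.Monic := by
      have := (ha1 i).1
      rw [hb] at this
      exact Monic.of_mul_monic_left hqm this
    by_cases hbd : b.natDegree = 0
    · have hb1 : b = 1 := hbm.natDegree_eq_zero.1 hbd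
      have hp1 : ∏ j, a (i.succAbove j) = p := by
        rw [Fin.prod_univ_succAbove _ i, hb, hb1, mul_one] at ha2
        exact mul_left_cancel₀ hq.ne_zero ha2
      refine ⟨(i, Sum.inr ⟨fun j => a (i.succAbove j), fun j => ha1 _, hp1⟩), ?_⟩
      apply Subtype.ext
      show (Fin.insertNth i q (fun j => a (i.succAbove j)) : Fin (l + 1) → F[X]) = a
      funext j
      refine Fin.succAboveCases i ?_ (fun j => ?_) j
      · rw [Fin.insertNth_apply_same, hb, hb1, mul_one]
      · rw [Fin.insertNth_apply_succAbove]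
    · have hp1 : ∏ j, Function.update a i b j = p := by
        rw [← Finset.mul_prod_erase _ _ (Finset.mem_univ i), hb, mul_assoc] at ha2
        rw [Finset.prod_update_of_mem (Finset.mem_univ i), Finset.sdiff_singleton_eq_erase]
        exact mul_left_cancel₀ hq.ne_zero ha2
      refine ⟨(i, Sum.inl ⟨Function.update a i b, fun j => ?_, hp1⟩), ?_⟩
      · by_cases hj : j = i
        · subst hj
          rw [Function.update_self]
          exact ⟨hbm, by omega⟩
        · rw [Function.update_of_ne hj]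
          exact ha1 j
      · apply Subtype.ext
        show Function.update (Function.update a i b) i (q * Function.update a i b i) = a
        rw [Function.update_self, Function.update_idem, ← hb, Function.update_eq_self]
  have h := Nat.card_congr (Equiv.ofBijective Ψ ⟨hinj, hsurj⟩)
  rw [Nat.card_prod, Nat.card_sum, Nat.card_eq_fintype_card, Fintype.card_fin] at h
  rw [← Nat.card_coe_set_eq, ← Nat.card_coe_set_eq, ← Nat.card_coe_set_eq]
  exact h.symm

theorem Wf_big {p : F[X]} {l : ℕ} (h : p.natDegree < l) : (Wf p l).ncard = 0 := by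
  have : Wf p l = ∅ := by
    rw [Set.eq_empty_iff_forall_notMem]
    rintro a ⟨h1, h2⟩
    have h3 : p.natDegree = ∑ i, (a i).natDegree := by
      rw [← h2, natDegree_prod_of_monic _ _ fun i _ => (h1 i).1]
    have h4 : ∑ _i : Fin l, 1 ≤ ∑ i, (a i).natDegree := Finset.sum_le_sum fun i _ => (h1 i).2
    simp only [Finset.sum_const, Finset.card_univ, Fintype.card_fin, smul_eq_mul, mul_one] at h4
    omega
  rw [this, Set.ncard_empty]

theorem Wf_zero (p : F[X]) : (Wf p 0).ncard = if p = 1 then 1 else 0 := by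
  by_cases hp : p = 1
  · subst hp
    rw [if_pos rfl, Set.ncard_eq_one]
    refine ⟨fun i => i.elim0, ?_⟩
    ext a
    constructor
    · intro _
      rw [Set.mem_singleton_iff]
      funext i
      exact i.elim0
    · intro _
      exact ⟨fun i => i.elim0, by simp⟩
  · rw [if_neg hp]
    have : Wf p 0 = ∅ := by
      rw [Set.eq_empty_iff_forall_notMem]
      rintro a ⟨-, h2⟩
      apply hp
      rw [← h2]
      simp
    rw [this, Set.ncard_empty]

theorem Wf_sum {p : F[X]} (hp : p.Monic) {m : ℕ} (hm : p.natDegree = m) (l : ℕ) :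
    ∑ c ∈ cp m l, ({a : Fin l → F[X] |
      (∀ i, (a i).Monic ∧ (a i).natDegree = c i) ∧ ∏ i, a i = p}.ncard : ℝ) = (Wf p l).ncard := by
  have hfin := Wf_finite hp.ne_zero l
  rw [Set.ncard_eq_toFinset_card _ hfin]
  rw [Finset.card_eq_sum_card_fiberwise (f := fun (a : Fin l → F[X]) i => (a i).natDegree)
    (t := cp m l)]
  · push_cast
    refine Finset.sum_congr rfl fun c hc => ?_
    rw [mem_cmp] at hc
    congr 1
    rw [← Set.ncard_coe_finset]
    congr 1
    ext a
    simp only [Set.mem_setOf_eq, Finset.coe_filter, Set.Finite.mem_toFinset]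
    constructor
    · rintro ⟨h1, h2⟩
      refine ⟨⟨fun i => ⟨(h1 i).1, ?_⟩, h2⟩, funext fun i => (h1 i).2⟩
      rw [(h1 i).2]
      exact hc.1 i
    · rintro ⟨⟨h1, h2⟩, h3⟩
      exact ⟨fun i => ⟨(h1 i).1, congrFun h3 i⟩, h2⟩
  · intro a ha
    rw [Finset.mem_coe, Set.Finite.mem_toFinset] at ha
    rw [Finset.mem_coe, mem_cmp]
    refine ⟨fun i => (ha.1 i).2, ?_⟩
    rw [← hm, ← ha.2, natDegree_prod_of_monic _ _ fun i _ => (ha.1 i).1]

theorem tele (n : ℕ → ℝ) (m : ℕ) :
    ∑ j ∈ Finset.range m, (-1 : ℝ) ^ j * (n (j + 1) + n j) = n 0 - (-1) ^ m * n m := by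
  induction m with
  | zero => simp
  | succ m ih =>
    rw [Finset.sum_range_succ, ih, pow_succ]
    ring

theorem fac_sum {p : F[X]} {m : ℕ} (hp : p.Monic) (hs : Squarefree p) (hm : p.natDegree = m)
    (h1 : 1 ≤ m) : (if Irreducible p then (1 : ℝ) else 0) =
      ∑ l ∈ Finset.Icc 1 m, (-1 : ℝ) ^ (l + 1) / l * ((Wf p l).ncard : ℝ) := by
  have hu : ¬ IsUnit p := by
    intro h
    rw [hp.isUnit_iff] at h
    rw [h, natDegree_one] at hm
    omega
  obtain ⟨q, hqm, hq, s, hqs⟩ := exists_monic_irreducible_factor p hu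
  have hsm : s.Monic := by
    rw [hqs] at hp
    exact Monic.of_mul_monic_left hqm hp
  have hqns : ¬ q ∣ s := by
    intro h
    apply hq.not_isUnit
    apply hs q
    rw [hqs]
    exact mul_dvd_mul_left q h
  have hqd : 1 ≤ q.natDegree := hq.natDegree_pos
  have hsd : s.natDegree < m := by
    rw [hqs, hqm.natDegree_mul hsm] at hm
    omega
  rw [sum_Icc_range (fun l : ℕ => (-1 : ℝ) ^ (l + 1) / l * ((Wf p l).ncard : ℝ))]
  have e : ∀ j : ℕ, (-1 : ℝ) ^ (j + 1 + 1) / ((j + 1 : ℕ) : ℝ) * ((Wf p (j + 1)).ncard : ℝ)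
      = (-1 : ℝ) ^ j * (((Wf s (j + 1)).ncard : ℝ) + ((Wf s j).ncard : ℝ)) := by
    intro j
    rw [hqs, Wf_rec hqm hq hsm hqns j, pow_succ, pow_succ]
    have : ((j : ℝ) + 1) ≠ 0 := by positivity
    push_cast
    field_simp
  simp_rw [e]
  rw [tele (fun j => ((Wf s j).ncard : ℝ)), Wf_big hsd, Wf_zero]
  by_cases hs1 : s = 1
  · rw [if_pos hs1, if_pos]
    · simp
    · rw [hqs, hs1, mul_one]
      exact hq
  · rw [if_neg hs1, if_neg]
    · simp
    · intro hirr
      rw [hqs] at hirr
      rcases hirr.isUnit_or_isUnit rfl with h2 | h2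
      · exact hq.not_isUnit h2
      · exact hs1 (hsm.isUnit_iff.1 h2)

end fac

/-- **COMB** -/
theorem T_COMB : P_COMB := by
  refine ⟨?_, sum_cmp⟩
  intro F _ p m hp hs hm h1
  rw [fac_sum hp hs hm h1]
  refine Finset.sum_congr rfl fun l _ => ?_
  rw [Wf_sum hp hm l]

end Run7.h779.TG
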