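import Pool.Agent.Run7.h784.TG.StmA
import Pool.Agent.N539.PP.Cls

/-!
# Project TG: local lemmas (helper779)
-/

set_option autoImplicit false
set_option linter.all false

open Polynomial IsDedekindDomain
open scoped Classical

namespace Run7.h779.TG

open Pool.Agent.N874.PP (Ov Ev Sq1)
open Pool.Agent.N352.PJ (IsGen)
open Run7.h784.TG

section gen

variable {L : Type} [Field L] {O : Type} [CommRing O] [IsDedekindDomain O] [Algebra O L]
  [IsFractionRing O L] (𝔓 : HeightOneSpectrum O)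

theorem val_ne {x : L} (h : 𝔓.valuation L x = 1) : x ≠ 0 := by
  rintro rfl
  rw [map_zero] at h
  exact zero_ne_one h

theorem val_close {x y : L} (hx : 𝔓.valuation L x = 1) (h : 𝔓.valuation L (x - y) < 1) :
    𝔓.valuation L y = 1 := by
  have e : y = x - (x - y) := by ring
  rw [e, sub_eq_add_neg, Valuation.map_add_eq_of_lt_left, hx]
  rwa [Valuation.map_neg, hx]

theorem val_close_lt {x y : L} (hx : 𝔓.valuation L x < 1) (h : 𝔓.valuation L (x - y) < 1) :
    𝔓.valuation L y < 1 := by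
  have e : y = x - (x - y) := by ring
  rw [e]
  exact lt_of_le_of_lt (Valuation.map_sub _ _ _) (max_lt hx h)

theorem sq1_congr {x u u' : L} (hx : x ≠ 0) (hu : 𝔓.valuation L u = 1)
    (h : 𝔓.valuation L (u - u') < 1) (hs : Sq1 𝔓 (x * u)) : Sq1 𝔓 (x * u') := by
  have hu' := val_close 𝔓 hu h
  obtain ⟨s, hs⟩ := hs
  refine ⟨s, ?_⟩
  have hvx : 0 < 𝔓.valuation L x := lt_of_le_of_ne zero_le' (Ne.symm ((Valuation.ne_zero_iff _).2 hx))
  have e : x * u' - s ^ 2 = (x * u - s ^ 2) - x * (u - u') := by ring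
  rw [map_mul, hu, mul_one] at hs
  rw [e, map_mul, hu', mul_one]
  refine lt_of_le_of_lt (Valuation.map_sub _ _ _) (max_lt hs ?_)
  rw [map_mul]
  exact mul_lt_of_lt_one_right hvx h

end gen

section poly

variable {k L O : Type} [Field k] [Field L] [Algebra k[X] L] [CommRing O] [IsDedekindDomain O]
  [Algebra O L] [IsFractionRing O L] [Algebra k[X] O] [IsScalarTower k[X] O L]
  [IsIntegralClosure O k[X] L]

/-- The value of a polynomial at `θ`. -/
noncomputable abbrev ev (θ : L) (p : k[X][X]) : L := eval₂ (algebraMap k[X] L) θ p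

theorem exists_O {θ : L} (hθ : IsIntegral k[X] θ) : ∃ t : O, algebraMap O L t = θ :=
  (IsIntegralClosure.isIntegral_iff (A := O) (R := k[X])).1 hθ

theorem ev_O (t : O) (p : k[X][X]) :
    ev (algebraMap O L t) p = algebraMap O L (eval₂ (algebraMap k[X] O) t p) := by
  rw [hom_eval₂, ← IsScalarTower.algebraMap_eq]

theorem val_ev_le {θ : L} (hθ : IsIntegral k[X] θ) (𝔓 : HeightOneSpectrum O) (p : k[X][X]) :
    𝔓.valuation L (ev θ p) ≤ 1 := by
  obtain ⟨t, rfl⟩ := exists_O (O := O) hθ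
  rw [ev_O]
  exact HeightOneSpectrum.valuation_le_one _ _

theorem val_P_lt {P : k[X]} {𝔓 : HeightOneSpectrum O} (h : Ov P 𝔓) :
    𝔓.valuation L (algebraMap k[X] L P) < 1 := by
  rw [IsScalarTower.algebraMap_apply k[X] O L, HeightOneSpectrum.valuation_lt_one_iff_mem]
  exact h

theorem val_poly_le (𝔓 : HeightOneSpectrum O) (p : k[X]) :
    𝔓.valuation L (algebraMap k[X] L p) ≤ 1 := by
  rw [IsScalarTower.algebraMap_apply k[X] O L]
  exact HeightOneSpectrum.valuation_le_one _ _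

theorem val_dvd_lt {P : k[X]} {𝔓 : HeightOneSpectrum O} (h : Ov P 𝔓) {p : k[X]} (hp : P ∣ p) :
    𝔓.valuation L (algebraMap k[X] L p) < 1 := by
  obtain ⟨q, rfl⟩ := hp
  rw [map_mul, map_mul]
  exact lt_of_le_of_lt (mul_le_of_le_one_right' (val_poly_le 𝔓 q)) (val_P_lt h)

theorem val_poly_one {P : k[X]} (hP : Irreducible P) {𝔓 : HeightOneSpectrum O} (h : Ov P 𝔓)
    {p : k[X]} (hp : ¬ P ∣ p) : 𝔓.valuation L (algebraMap k[X] L p) = 1 := by
  refine le_antisymm (val_poly_le 𝔓 p) ?_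
  by_contra hlt
  rw [not_le] at hlt
  obtain ⟨a, b, hab⟩ := (hP.coprime_iff_not_dvd).2 hp
  have h1 : 𝔓.valuation L (algebraMap k[X] L 1) < 1 := by
    rw [← hab, map_add, map_mul, map_mul]
    refine lt_of_le_of_lt (Valuation.map_add _ _ _) (max_lt ?_ ?_)
    · rw [map_mul]
      exact lt_of_le_of_lt (mul_le_of_le_one_left' (val_poly_le 𝔓 a)) (val_P_lt h)
    · rw [map_mul]
      exact lt_of_le_of_lt (mul_le_of_le_one_left' (val_poly_le 𝔓 b)) hlt
  rw [map_one, map_one] at h1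
  exact lt_irrefl _ h1

theorem val_ev_lt {θ : L} (hθ : IsIntegral k[X] θ) {P : k[X]} {𝔓 : HeightOneSpectrum O}
    (h : Ov P 𝔓) {p : k[X][X]} (hp : ∀ j, P ∣ p.coeff j) : 𝔓.valuation L (ev θ p) < 1 := by
  obtain ⟨q, rfl⟩ := (C_dvd_iff_dvd_coeff P p).2 hp
  rw [ev, eval₂_mul, eval₂_C, map_mul]
  exact lt_of_le_of_lt (mul_le_of_le_one_right' (val_ev_le hθ 𝔓 q)) (val_P_lt h)

end poly

section res

variable {k : Type} [Field k]

theorem exists_res {Q : k[X]} (hQ : Irreducible Q) : ∃ (κ : Type) (_ : Field κ) (π : k[X] →+* κ),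
    Function.Surjective π ∧ ∀ c, π c = 0 ↔ Q ∣ c := by
  haveI : (Ideal.span {Q} : Ideal k[X]).IsMaximal := PrincipalIdealRing.isMaximal_of_irreducible hQ
  refine ⟨k[X] ⧸ (Ideal.span {Q} : Ideal k[X]), Ideal.Quotient.field _,
    Ideal.Quotient.mk (Ideal.span {Q}), Ideal.Quotient.mk_surjective, fun c => ?_⟩
  rw [Ideal.Quotient.eq_zero_iff_mem, Ideal.mem_span_singleton]

variable {κ : Type} [Field κ] {π : k[X] →+* κ} {Q : k[X]}

theorem cong_iff (hπ : ∀ c, π c = 0 ↔ Q ∣ c) (p q : k[X][X]) :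
    (∀ j, Q ∣ (p - q).coeff j) ↔ p.map π = q.map π := by
  constructor
  · intro h
    ext j
    rw [coeff_map, coeff_map, ← sub_eq_zero, ← map_sub, hπ, ← coeff_sub]
    exact h j
  · intro h j
    rw [← hπ, coeff_sub, map_sub, ← coeff_map, ← coeff_map, h, sub_self]

theorem lift_monic (hs : Function.Surjective π) {p : κ[X]} (hp : p.Monic) :
    ∃ q : k[X][X], q.Monic ∧ q.map π = p ∧ q.natDegree = p.natDegree := by
  have h : p ∈ lifts π := (mem_lifts p).2 (map_surjective π hs p)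
  obtain ⟨q, h1, h2, h3⟩ := lifts_and_natDegree_eq_and_monic h hp
  exact ⟨q, h3, h1, h2⟩

/-- Common factor of two monic polynomials. -/
theorem gcd_monic {A A' : κ[X]} (hA : A.Monic) (hA' : A'.Monic) : ∃ d a a' : κ[X],
    d.Monic ∧ a.Monic ∧ a'.Monic ∧ A = d * a ∧ A' = d * a' ∧ IsCoprime a a' := by
  set g := EuclideanDomain.gcd A A' with hg
  have hg0 : g ≠ 0 := by
    intro h0
    rw [hg, EuclideanDomain.gcd_eq_zero_iff] at h0
    exact hA.ne_zero h0.1
  obtain ⟨a, ha⟩ := EuclideanDomain.gcd_dvd_left A A'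
  obtain ⟨a', ha'⟩ := EuclideanDomain.gcd_dvd_right A A'
  rw [← hg] at ha ha'
  have hlc : g.leadingCoeff ≠ 0 := leadingCoeff_ne_zero.2 hg0
  have hcc : C g.leadingCoeff⁻¹ * C g.leadingCoeff = (1 : κ[X]) := by
    rw [← C_mul, inv_mul_cancel₀ hlc, C_1]
  have hd : (g * C g.leadingCoeff⁻¹).Monic := monic_mul_leadingCoeff_inv hg0
  have e1 : A = g * C g.leadingCoeff⁻¹ * (C g.leadingCoeff * a) := by
    rw [ha]
    linear_combination (-g * a) * hcc
  have e2 : A' = g * C g.leadingCoeff⁻¹ * (C g.leadingCoeff * a') := by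
    rw [ha']
    linear_combination (-g * a') * hcc
  refine ⟨g * C g.leadingCoeff⁻¹, C g.leadingCoeff * a, C g.leadingCoeff * a', hd, ?_, ?_, e1, e2, ?_⟩
  · rw [e1] at hA
    exact Monic.of_mul_monic_left hd hA
  · rw [e2] at hA'
    exact Monic.of_mul_monic_left hd hA'
  · have h1 : g = A * EuclideanDomain.gcdA A A' + A' * EuclideanDomain.gcdB A A' :=
      EuclideanDomain.gcd_eq_gcd_ab A A'
    set u := EuclideanDomain.gcdA A A' with hu
    set v := EuclideanDomain.gcdB A A' with hv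
    have h2 : g * 1 = g * (a * u + a' * v) := by
      rw [mul_one, mul_add, ← mul_assoc, ← mul_assoc, ← ha, ← ha']
      exact h1
    have h3 := mul_left_cancel₀ hg0 h2
    refine ⟨C g.leadingCoeff⁻¹ * u, C g.leadingCoeff⁻¹ * v, ?_⟩
    linear_combination (a * u + a' * v) * hcc - h3

end res

end Run7.h779.TG
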